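import Mathlib
import Pool.Agent.H19.Shearer

set_option autoImplicit false

namespace Pool.Agent.Results.MP_df8e9b_al.Monotone

open Filter Topology
open scoped Pointwise ENNReal Classical

universe u v w w'

section defs
variable {G : Type u} (A : Type v) {ι : Type w} [Group G] [AddCommGroup A] [DistribMulAction G A]

/-- A right Følner net (indexed along the filter `l`). -/
def RightFolner (l : Filter ι) (F : ι → Finset G) : Prop :=
  (∀ i, (F i).Nonempty) ∧ ∀ g : G,
    Tendsto (fun i => ((symmDiff ((F i).image (· * g)) (F i)).card : ℝ) / (F i).card) l (𝓝 0)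

variable {A} in
/-- `H_alg(α,X) = lim log |T_{F_i}(α,X)| / |F_i|` with `T_F(α,X) = ∑_{g ∈ F} g • X`; along a
right Følner net the limit exists, so it equals the upper limit. -/
noncomputable def Halg (l : Filter ι) (F : ι → Finset G) (X : Set A) : ℝ≥0∞ :=
  limsup (fun i => ENNReal.ofReal (Real.log (∑ g ∈ F i, g • X).ncard / (F i).card)) l

/-- `h_alg(α)`: the supremum over finite non-empty subsets. -/
noncomputable def halg (l : Filter ι) (F : ι → Finset G) : ℝ≥0∞ :=
  ⨆ (X : Set A) (_ : X.Finite ∧ X.Nonempty), Halg l F X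

/-- `ent(α)`: the supremum over finite subgroups. -/
noncomputable def ent (l : Filter ι) (F : ι → Finset G) : ℝ≥0∞ :=
  ⨆ (X : AddSubgroup A) (_ : Finite X), Halg l F (X : Set A)

end defs

open Pool.Agent.H19.Shearer in
/-- Restricting an action to a subgroup does not decrease the algebraic entropy. -/
theorem result {G : Type u} {A : Type v} [Group G] [AddCommGroup A] [DistribMulAction G A]
    (H : Subgroup G) {ι : Type w} {κ : Type w'} (l : Filter ι) [l.NeBot] (F : ι → Finset G)
    (hF : RightFolner l F) (l' : Filter κ) [l'.NeBot] (E : κ → Finset H) (hE : RightFolner l' E) :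
    halg A l F ≤ halg A l' E ∧ ent A l F ≤ ent A l' E := by
  have key : ∀ X : Set A, X.Finite → X.Nonempty → Halg l F X ≤ Halg l' E X := fun X h1 h2 => by
    simpa [Halg, ell] using sub_le (l' := l') hF.1 (fun g => of_symmDiff (hF.2 g)) H hE.1 h1 h2 {1}
      (by simp) (by simp)
  exact ⟨iSup₂_mono fun X hX => key X hX.1 hX.2, iSup₂_mono fun X hX => key X hX ⟨0, zero_mem X⟩⟩

end Pool.Agent.Results.MP_df8e9b_al.Monotone
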